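import Pool.Agent.U832.RG.PrimeUse
import Pool.Agent.U832.RH.GeE

/-!
# Schinzel's Goldbach-type hypothesis with primes and almost primes: EVERY large admissible `N`

Let `F_1, …, F_g`, `G` be as in the question, no two of the `F_i` translates of each other. For EVERY large admissible
`N` let `S` be the set of the integers `n` for which none of `F_1(n), …, F_g(n), N - G(n)` has a prime factor
`≤ N ^ (1 / r)`. If one of the `F_i` is `n` itself (Goldbach's problem, `N = G(p) + q`, …): around the PRIMES in `S`,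
that is around the primes `p` for which the other values have no prime factor `≤ N ^ (1 / r)`, the elements of `S` form
a Poisson process: the numbers of elements of `S` in disjoint windows are independent Poisson variables. For all `F_i`
the same holds around arbitrary elements of `S`, around arbitrary integers, and around the `n` for which
`F_1(n) ⋯ F_g(n) (N - G(n))` has at most `R` prime factors, all `> N ^ v` (`R` and `v` do not depend on the windows), in
all intervals of length `≥ N ^ θ`.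
-/

set_option autoImplicit false

namespace Pool.Agent.Results.MP_0bf1d2_nt.EveryNPoisson

open Finset Filter Polynomial Pool.Agent.U832.RG Pool.Agent.U832.RH

variable {g : ℕ}

/-- The hypotheses of the question on `F_1, …, F_g` and `G`, and: no `F_i` is a translate of an `F_j`. -/
structure Data (F : Fin g → ℤ[X]) (G : ℤ[X]) : Prop where
  one_le : 1 ≤ g
  distinct : Function.Injective F
  irreducible : ∀ i, Irreducible (F i)
  degree : ∀ i, 1 ≤ (F i).natDegree
  leading : ∀ i, 0 < (F i).leadingCoeff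
  degreeG : 1 ≤ G.natDegree
  leadingG : 0 < G.leadingCoeff
  translates : ∀ i j, ∀ t : ℕ, 1 ≤ t → F i ≠ (F j).comp (X + C (t : ℤ))

/-- `N` is admissible: `N - G` is irreducible and `F_1 ⋯ F_g (N - G)` has no fixed prime divisor. -/
def Admissible (F : Fin g → ℤ[X]) (G : ℤ[X]) (N : ℕ) : Prop :=
  Irreducible (C (N : ℤ) - G) ∧
    ∀ p : ℕ, p.Prime → ∃ n : ℕ, ¬ (p : ℤ) ∣ (∏ i, (F i).eval (n : ℤ)) * ((N : ℤ) - G.eval (n : ℤ))

/-- The `n` for which none of `F_1(n), …, F_g(n), N - G(n)` has a prime factor `≤ y`. -/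
def Rough (F : Fin g → ℤ[X]) (G : ℤ[X]) (N y : ℕ) : Set ℕ :=
  {n | ∀ p : ℕ, p.Prime → p ≤ y → ¬ (p : ℤ) ∣ (∏ i, (F i).eval (n : ℤ)) * ((N : ℤ) - G.eval (n : ℤ))}

/-- The `n` for which `F_1(n) ⋯ F_g(n) (N - G(n))` has at most `R` prime factors, counted with multiplicity, all
`> z`. -/
def AlmostRough (F : Fin g → ℤ[X]) (G : ℤ[X]) (N R z : ℕ) : Set ℕ :=
  {n | n ∈ Rough F G N z ∧
    ((∏ i, (F i).eval (n : ℤ)) * ((N : ℤ) - G.eval (n : ℤ))).natAbs.primeFactorsList.length ≤ R}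

open Classical in
/-- The number `ω_N(p)` of the residues `n` modulo `p` with `F_1(n) ⋯ F_g(n) (N - G(n)) ≡ 0`. -/
noncomputable def omega (F : Fin g → ℤ[X]) (G : ℤ[X]) (N p : ℕ) : ℕ :=
  ((range p).filter (fun n : ℕ => (p : ℤ) ∣ (∏ i, (F i).eval (n : ℤ)) * ((N : ℤ) - G.eval (n : ℤ)))).card

/-- The product of `1 - ω_N(p) / p` over the primes `p ≤ y`. -/
noncomputable def V (F : Fin g → ℤ[X]) (G : ℤ[X]) (N y : ℕ) : ℝ :=
  ∏ p ∈ (Icc 1 y).filter Nat.Prime, (1 - (omega F G N p : ℝ) / p)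

section aux

open Pool.Agent.Y879.GL Pool.Agent.TH464.PO Pool.Agent.H373R2.T7 Pool.Agent.W123.RP
open Pool.Agent.W123.RU.Poly (Q Sys)

/-- the system -/
noncomputable def sy (F : Fin g → ℤ[X]) (G : ℤ[X]) (N : ℕ) : Fin (g + 1) → ℤ[X] := Fin.cons (C (N : ℤ) - G) F

lemma sy_Q (F : Fin g → ℤ[X]) (G : ℤ[X]) (N p : ℕ) (hp : p.Prime) (m : ℕ) :
    Q (sy F G N) p m ↔ (p : ℤ) ∣ (∏ i, (F i).eval (m : ℤ)) * ((N : ℤ) - G.eval (m : ℤ)) := by
  have hpi : Prime (p : ℤ) := Nat.prime_iff_prime_int.1 hp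
  unfold Q sy
  rw [Fin.exists_fin_succ, hpi.dvd_mul, hpi.dvd_finsetProd_iff]
  simp only [Fin.cons_zero, Fin.cons_succ, eval_sub, eval_C, mem_univ, true_and]
  exact or_comm

lemma pz_eq (y : ℕ) : pz y = (Icc 1 y).filter Nat.Prime := by
  ext p
  rw [mem_pz, mem_filter, mem_Icc]
  constructor
  · exact fun h => ⟨⟨h.2.one_lt.le, h.1⟩, h.2⟩
  · exact fun h => ⟨h.1.2, h.2⟩

lemma rough_iff (F : Fin g → ℤ[X]) (G : ℤ[X]) (N y m : ℕ) :
    m ∈ Rough F G N y ↔ Sf (Q (sy F G N)) y m := by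
  constructor
  · intro h p hp
    rw [sy_Q F G N p (mem_pz.1 hp).2]
    exact h p (mem_pz.1 hp).2 (mem_pz.1 hp).1
  · intro h p hp hpy
    rw [← sy_Q F G N p hp]
    exact h p (mem_pz.2 ⟨hpy, hp⟩)

lemma V_eq (F : Fin g → ℤ[X]) (G : ℤ[X]) (N y : ℕ) : Vq (Q (sy F G N)) y = V F G N y := by
  classical
  unfold Vq V
  rw [pz_eq]
  apply Finset.prod_congr rfl
  intro p hp
  congr 3
  unfold omega nuB
  congr 1
  ext m
  rw [mem_filter, mem_filter, sy_Q F G N p (mem_filter.1 hp).2]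

lemma eval_bound (F : ℤ[X]) (t : ℕ) (ht : 1 ≤ t) (D : ℕ) (hD : F.natDegree ≤ D) :
    |((F.eval (t : ℤ) : ℤ) : ℝ)| ≤ (∑ i ∈ range (F.natDegree + 1), |((F.coeff i : ℤ) : ℝ)|) * (t : ℝ) ^ D := by
  have ht1 : (1 : ℝ) ≤ t := by exact_mod_cast ht
  rw [eval_eq_sum_range]
  push_cast
  refine (Finset.abs_sum_le_sum_abs _ _).trans ?_
  rw [Finset.sum_mul]
  apply Finset.sum_le_sum
  intro i hi
  rw [abs_mul, abs_pow, Nat.abs_cast]
  apply mul_le_mul_of_nonneg_left _ (abs_nonneg _)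
  apply pow_le_pow_right₀ ht1
  rw [mem_range] at hi
  omega

/-- the sum of the absolute values of the coefficients -/
noncomputable def cs (F : ℤ[X]) : ℝ := ∑ i ∈ range (F.natDegree + 1), |((F.coeff i : ℤ) : ℝ)|

lemma cs_nonneg (F : ℤ[X]) : 0 ≤ cs F := Finset.sum_nonneg fun _ _ => abs_nonneg _

lemma coeff_cs (F : ℤ[X]) (n : ℕ) : |((F.coeff n : ℤ) : ℝ)| ≤ cs F := by
  by_cases h : n ≤ F.natDegree
  · exact Finset.single_le_sum (f := fun i => |((F.coeff i : ℤ) : ℝ)|) (fun _ _ => abs_nonneg _)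
      (mem_range.2 (by omega))
  · rw [coeff_eq_zero_of_natDegree_lt (by omega)]
    simpa using cs_nonneg F

lemma sys_us (F : Fin g → ℤ[X]) (G : ℤ[X]) (h : Data F G) (D : ℕ) (hD : D = G.natDegree + ∑ i, (F i).natDegree) :
    ∀ᶠ N : ℕ in atTop, Admissible F G N →
      US (g + 1) D ((N : ℝ) ^ (2 : ℝ)) ((N : ℝ) ^ (1 / (2 * (D : ℝ)))) (sy F G N) := by
  have hDF : ∀ i, (F i).natDegree ≤ D := fun i => by
    have := Finset.single_le_sum (f := fun i => (F i).natDegree) (fun _ _ => Nat.zero_le _) (mem_univ i)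
    omega
  have hD1 : 1 ≤ D := by
    have := h.degreeG
    omega
  have hDr : (1 : ℝ) ≤ D := by exact_mod_cast hD1
  obtain ⟨B, hB⟩ : ∃ B : ℝ, B = cs G + ∑ i, cs (F i) := ⟨_, rfl⟩
  have hsum0 : 0 ≤ ∑ i, cs (F i) := Finset.sum_nonneg fun i _ => cs_nonneg _
  have hBG : cs G ≤ B := by linarith
  have hBF : ∀ i, cs (F i) ≤ B := fun i => by
    have h1 := Finset.single_le_sum (f := fun i => cs (F i)) (fun i _ => cs_nonneg _) (mem_univ i)
    have h2 := cs_nonneg G
    linarith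
  have hB0 : 0 ≤ B := (cs_nonneg G).trans hBG
  obtain ⟨M, hM⟩ : ∃ M : ℕ, (4 * B + 4) ^ 2 ≤ M := exists_nat_ge _
  filter_upwards [eventually_ge_atTop (M + 4)] with N hN
  intro hadm
  have hNr : (4 * B + 4) ^ 2 ≤ (N : ℝ) := hM.trans (by exact_mod_cast (by omega : M ≤ N))
  have hN4 : (4 : ℝ) ≤ N := by exact_mod_cast (by omega : 4 ≤ N)
  have hN0 : (0 : ℝ) < N := by linarith
  have hsq : (4 * B + 4) ≤ √(N : ℝ) := Real.le_sqrt_of_sq_le hNr
  have hss : √(N : ℝ) * √(N : ℝ) = N := Real.mul_self_sqrt hN0.le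
  have hs0 : 0 < √(N : ℝ) := by linarith
  have hdegG : (C (N : ℤ) - G).natDegree = G.natDegree := by
    rw [natDegree_sub, natDegree_sub_C]
  have key : ∀ H : ℤ[X], cs H ≤ B → H.natDegree ≤ D → ∀ t : ℕ, 1 ≤ t →
      (t : ℝ) ≤ (N : ℝ) ^ (1 / (2 * (D : ℝ))) → |((H.eval (t : ℤ) : ℤ) : ℝ)| ≤ B * √(N : ℝ) := by
    intro H hH hHD t ht htN
    refine (eval_bound H t ht D hHD).trans ?_
    apply mul_le_mul hH _ (by positivity) hB0
    calc (t : ℝ) ^ D ≤ ((N : ℝ) ^ (1 / (2 * (D : ℝ)))) ^ D := pow_le_pow_left₀ (Nat.cast_nonneg _) htN _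
      _ = (N : ℝ) ^ (1 / 2 : ℝ) := by
          rw [← Real.rpow_natCast, ← Real.rpow_mul hN0.le]
          congr 1
          field_simp
      _ = √(N : ℝ) := (Real.sqrt_eq_rpow _).symm
  have hBN : 2 * B * √(N : ℝ) < N := by
    calc 2 * B * √(N : ℝ) < √(N : ℝ) * √(N : ℝ) := mul_lt_mul_of_pos_right (by linarith) hs0
      _ = N := hss
  have hcoef0 : ∀ H : ℤ[X], cs H ≤ B → |((H.coeff 0 : ℤ) : ℝ)| ≤ B := fun H hH => (coeff_cs H 0).trans hH
  have hBB : B ≤ B * √(N : ℝ) := by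
    apply le_mul_of_one_le_right hB0
    linarith
  exact
    { irr := fun i => by
        refine Fin.cases ?_ (fun i => ?_) i
        · exact hadm.1
        · exact h.irreducible i
      deg := fun i => by
        refine Fin.cases ?_ (fun i => ?_) i
        · show (C (N : ℤ) - G).natDegree ≠ 0
          rw [hdegG]
          have := h.degreeG
          omega
        · have := h.degree i
          show (F i).natDegree ≠ 0
          omega
      degD := fun i => by
        refine Fin.cases ?_ (fun i => ?_) i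
        · show (C (N : ℤ) - G).natDegree ≤ D
          rw [hdegG]
          omega
        · exact hDF i
      hgt := fun i n => by
        have hNN : (N : ℝ) ^ (2 : ℝ) = N * N := by
          rw [show (2 : ℝ) = ((2 : ℕ) : ℝ) by norm_num, Real.rpow_natCast, sq]
        rw [hNN]
        have hBle : B ≤ N := by nlinarith
        refine Fin.cases ?_ (fun i => ?_) i
        · show |(((C (N : ℤ) - G).coeff n : ℤ) : ℝ)| ≤ N * N
          rw [coeff_sub, coeff_C]
          have h1 := (coeff_cs G n).trans hBG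
          have h2 : |(((if n = 0 then (N : ℤ) else 0 : ℤ)) : ℝ)| ≤ N := by
            split_ifs
            · simp
            · simp
          push_cast
          push_cast at h2
          refine (abs_sub _ _).trans ?_
          nlinarith
        · show |(((F i).coeff n : ℤ) : ℝ)| ≤ N * N
          have h1 := (coeff_cs (F i) n).trans (hBF i)
          nlinarith
      adm := fun p hp => by
        obtain ⟨n, hn⟩ := hadm.2 p hp
        refine ⟨n, fun i hi => hn ?_⟩
        rw [← sy_Q F G N p hp]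
        exact ⟨i, hi⟩
      tr := fun i j t ht htN hA => by
        have hev : ∀ i j, Associated (sy F G N i) ((sy F G N j).comp (X + C (t : ℤ))) →
            (sy F G N i).eval 0 = (sy F G N j).eval (t : ℤ) ∨ (sy F G N i).eval 0 = -(sy F G N j).eval (t : ℤ) := by
          intro i j hA
          rcases assoc_cases hA with h1 | h1
          · left
            rw [h1, eval_comp, eval_add, eval_X, eval_C, zero_add]
          · right
            rw [h1, eval_neg, eval_comp, eval_add, eval_X, eval_C, zero_add]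
        have hc := hev i j hA
        revert hA hc
        refine Fin.cases ?_ (fun i => ?_) i
        · refine Fin.cases ?_ (fun j => ?_) j
          · intro hA _
            exact no_self _ (by
              show (C (N : ℤ) - G).natDegree ≠ 0
              rw [hdegG]
              have := h.degreeG
              omega) (t : ℤ) (by exact_mod_cast (by omega : t ≠ 0)) hA
          · intro _ hc
            have e1 : (sy F G N 0).eval 0 = (N : ℤ) - G.coeff 0 := by
              show (C (N : ℤ) - G).eval 0 = _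
              rw [eval_sub, eval_C, coeff_zero_eq_eval_zero]
            have e2 : (sy F G N (Fin.succ j)).eval (t : ℤ) = (F j).eval (t : ℤ) := rfl
            rw [e1, e2] at hc
            have h1 := key (F j) (hBF j) (hDF j) t ht htN
            have h2 := hcoef0 G hBG
            have h3 : (N : ℝ) ≤ |((G.coeff 0 : ℤ) : ℝ)| + |(((F j).eval (t : ℤ) : ℤ) : ℝ)| := by
              rcases hc with hc | hc
              · have h4 : (N : ℝ) = (G.coeff 0 : ℤ) + ((F j).eval (t : ℤ) : ℤ) := by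
                  have : (N : ℤ) = G.coeff 0 + (F j).eval (t : ℤ) := by linarith
                  exact_mod_cast this
                rw [h4]
                exact add_le_add (le_abs_self _) (le_abs_self _)
              · have h4 : (N : ℝ) = (G.coeff 0 : ℤ) - ((F j).eval (t : ℤ) : ℤ) := by
                  have : (N : ℤ) = G.coeff 0 - (F j).eval (t : ℤ) := by linarith
                  exact_mod_cast this
                rw [h4, sub_eq_add_neg]
                exact add_le_add (le_abs_self _) (neg_le_abs _)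
            linarith
        · refine Fin.cases ?_ (fun j => ?_) j
          · intro _ hc
            have e1 : (sy F G N 0).eval (t : ℤ) = (N : ℤ) - G.eval (t : ℤ) := by
              show (C (N : ℤ) - G).eval (t : ℤ) = _
              rw [eval_sub, eval_C]
            have e2 : (sy F G N (Fin.succ i)).eval 0 = (F i).coeff 0 := by
              show (F i).eval 0 = _
              rw [coeff_zero_eq_eval_zero]
            rw [e1, e2] at hc
            have h1 := key G hBG (by omega) t ht htN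
            have h2 := hcoef0 (F i) (hBF i)
            have h3 : (N : ℝ) ≤ |((G.eval (t : ℤ) : ℤ) : ℝ)| + |(((F i).coeff 0 : ℤ) : ℝ)| := by
              rcases hc with hc | hc
              · have h4 : (N : ℝ) = (G.eval (t : ℤ) : ℤ) + ((F i).coeff 0 : ℤ) := by
                  have : (N : ℤ) = G.eval (t : ℤ) + (F i).coeff 0 := by linarith
                  exact_mod_cast this
                rw [h4]
                exact add_le_add (le_abs_self _) (le_abs_self _)
              · have h4 : (N : ℝ) = (G.eval (t : ℤ) : ℤ) - ((F i).coeff 0 : ℤ) := by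
                  have : (N : ℤ) = G.eval (t : ℤ) - (F i).coeff 0 := by linarith
                  exact_mod_cast this
                rw [h4, sub_eq_add_neg]
                exact add_le_add (le_abs_self _) (neg_le_abs _)
            linarith
          · intro hA _
            rcases assoc_cases hA with h1 | h1
            · exact h.translates i j t ht h1
            · have h2 := congrArg leadingCoeff h1
              have e1 : (sy F G N (Fin.succ i)) = F i := rfl
              have e2 : (sy F G N (Fin.succ j)) = F j := rfl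
              rw [leadingCoeff_neg, lc_shift, e1, e2] at h2
              have h3 := h.leading i
              have h4 := h.leading j
              omega }

lemma us_zero {k D : ℕ} {H U : ℝ} {f : Fin k → ℤ[X]} (h : US k D H U f) : US k D H 0 f :=
  ⟨h.irr, h.deg, h.degD, h.hgt, h.adm, fun i j t ht ht0 _ => by
    have h5 : (1 : ℝ) ≤ t := by exact_mod_cast ht
    linarith⟩

lemma sys_V (F : Fin g → ℤ[X]) (G : ℤ[X]) (h : Data F G) (r : ℕ) (hr : 2 ≤ r) : ∃ Cv : ℝ, 0 < Cv ∧
    ∀ᶠ N : ℕ in atTop, Admissible F G N → Vq (Q (sy F G N)) ⌊(N : ℝ) ^ (1 / (r : ℝ))⌋₊ ≤ Cv / Real.log N := by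
  by_cases hF : ∀ p : ℕ, p.Prime → ∃ m : ℕ, ∀ i, ¬ (p : ℤ) ∣ (F i).eval (m : ℤ)
  · have hS : Sys F := ⟨h.irreducible, h.degree, h.leading, h.distinct, hF⟩
    have : Nonempty (Fin g) := ⟨⟨0, h.one_le⟩⟩
    obtain ⟨Cv, hCv, hV⟩ := V_from_sys F hS r hr
    refine ⟨Cv, hCv, ?_⟩
    filter_upwards [hV] with N hN _
    apply (hN (Q (sy F G N)) _).2
    rintro p m _ ⟨i, hi⟩
    exact ⟨Fin.succ i, hi⟩
  · refine ⟨1, one_pos, Filter.Eventually.of_forall fun N hN => ?_⟩
    exfalso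
    apply hF
    intro p hp
    obtain ⟨m, hm⟩ := hN.2 p hp
    refine ⟨m, fun i hi => hm ?_⟩
    exact Dvd.dvd.mul_right (hi.trans (Finset.dvd_prod_of_mem (fun i => (F i).eval (m : ℤ)) (mem_univ i))) _

lemma eval_le (H : ℤ[X]) (n N : ℕ) (hn : n ≤ N) (hN : 1 ≤ N) :
    |((H.eval (n : ℤ) : ℤ) : ℝ)| ≤ cs H * (N : ℝ) ^ H.natDegree := by
  have hN1 : (1 : ℝ) ≤ N := by exact_mod_cast hN
  rw [eval_eq_sum_range]
  push_cast
  refine (Finset.abs_sum_le_sum_abs _ _).trans ?_
  unfold cs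
  rw [Finset.sum_mul]
  apply Finset.sum_le_sum
  intro i hi
  rw [abs_mul, abs_pow, Nat.abs_cast]
  apply mul_le_mul_of_nonneg_left _ (abs_nonneg _)
  rw [mem_range] at hi
  calc (n : ℝ) ^ i ≤ (N : ℝ) ^ i := pow_le_pow_left₀ (Nat.cast_nonneg _) (by exact_mod_cast hn) _
    _ ≤ (N : ℝ) ^ H.natDegree := pow_le_pow_right₀ hN1 (by omega)

lemma val_le (F : Fin g → ℤ[X]) (G : ℤ[X]) (D : ℕ) (hD : D = G.natDegree + ∑ i, (F i).natDegree) :
    ∀ᶠ N : ℕ in atTop, ∀ n ≤ N, ((∏ i, (F i).eval (n : ℤ)) * ((N : ℤ) - G.eval (n : ℤ))).natAbs ≤ N ^ (D + 2) := by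
  obtain ⟨B, hB⟩ : ∃ B : ℝ, B = (∏ i, cs (F i)) * (1 + cs G) := ⟨_, rfl⟩
  obtain ⟨M, hM⟩ : ∃ M : ℕ, B ≤ M := exists_nat_ge _
  have hc0 : 0 ≤ cs G := cs_nonneg G
  have hp0 : 0 ≤ ∏ i, cs (F i) := Finset.prod_nonneg fun i _ => cs_nonneg _
  filter_upwards [eventually_ge_atTop (M + 1)] with N hN n hn
  have hN1 : (1 : ℝ) ≤ N := by exact_mod_cast (by omega : 1 ≤ N)
  have hMN : (M : ℝ) ≤ N := by exact_mod_cast (by omega : M ≤ N)
  have h1 : |((∏ i, (F i).eval (n : ℤ) : ℤ) : ℝ)| ≤ (∏ i, cs (F i)) * (N : ℝ) ^ (∑ i, (F i).natDegree) := by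
    rw [Int.cast_prod, Finset.abs_prod, ← Finset.prod_pow_eq_pow_sum, ← Finset.prod_mul_distrib]
    apply Finset.prod_le_prod
    · intro i _
      exact abs_nonneg _
    · intro i _
      exact eval_le (F i) n N hn (by omega)
  have h2 : |(((N : ℤ) - G.eval (n : ℤ) : ℤ) : ℝ)| ≤ (1 + cs G) * (N : ℝ) ^ (G.natDegree + 1) := by
    have g1 := eval_le G n N hn (by omega)
    have g2 : (N : ℝ) ≤ (N : ℝ) ^ (G.natDegree + 1) := le_self_pow₀ hN1 (by omega)
    have g3 : (N : ℝ) ^ G.natDegree ≤ (N : ℝ) ^ (G.natDegree + 1) := pow_le_pow_right₀ hN1 (by omega)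
    push_cast
    refine (abs_sub _ _).trans ?_
    rw [abs_of_nonneg (by positivity : (0 : ℝ) ≤ (N : ℝ))]
    have g4 := mul_le_mul_of_nonneg_left g3 hc0
    linarith
  have h3 : (((((∏ i, (F i).eval (n : ℤ)) * ((N : ℤ) - G.eval (n : ℤ))).natAbs : ℕ) : ℤ) : ℝ) ≤
      (N : ℝ) ^ (D + 2) := by
    rw [Int.natCast_natAbs, Int.cast_abs, Int.cast_mul, abs_mul]
    calc |((∏ i, (F i).eval (n : ℤ) : ℤ) : ℝ)| * |(((N : ℤ) - G.eval (n : ℤ) : ℤ) : ℝ)|
        ≤ ((∏ i, cs (F i)) * (N : ℝ) ^ (∑ i, (F i).natDegree)) * ((1 + cs G) * (N : ℝ) ^ (G.natDegree + 1)) :=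
          mul_le_mul h1 h2 (abs_nonneg _) (by positivity)
      _ = B * (N : ℝ) ^ (D + 1) := by
          rw [hB, hD, show G.natDegree + ∑ i, (F i).natDegree + 1 = (∑ i, (F i).natDegree) + (G.natDegree + 1) by ring,
            pow_add (N : ℝ) (∑ i, (F i).natDegree) (G.natDegree + 1)]
          ring
      _ ≤ N * (N : ℝ) ^ (D + 1) := mul_le_mul_of_nonneg_right (hM.trans hMN) (by positivity)
      _ = (N : ℝ) ^ (D + 2) := by ring
  rw [Int.cast_natCast] at h3
  exact_mod_cast h3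

lemma almost_iff (F : Fin g → ℤ[X]) (G : ℤ[X]) (D N z n : ℕ) (v : ℝ) (hN : 2 ≤ N) (hv : 0 < v)
    (hz : z = ⌊(N : ℝ) ^ v⌋₊) (hz2 : 2 ≤ z)
    (hval : ((∏ i, (F i).eval (n : ℤ)) * ((N : ℤ) - G.eval (n : ℤ))).natAbs ≤ N ^ (D + 2)) :
    n ∈ AlmostRough F G N ⌊((D + 2 : ℕ) : ℝ) / v⌋₊ z ↔ n ∈ Rough F G N z := by
  refine ⟨fun h => h.1, fun h => ⟨h, ?_⟩⟩
  have hdvd : ∀ p : ℕ, p.Prime → p ≤ z →
      ¬ p ∣ ((∏ i, (F i).eval (n : ℤ)) * ((N : ℤ) - G.eval (n : ℤ))).natAbs :=
    fun p hp hpz hd => h p hp hpz (Int.natCast_dvd.2 hd)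
  apply few_factors N v ((D + 2 : ℕ) : ℝ) hN hv
  · intro h0
    exact hdvd 2 Nat.prime_two hz2 (by rw [h0]; exact dvd_zero 2)
  · rw [Real.rpow_natCast]
    exact_mod_cast hval
  · intro p hp hpz
    exact hdvd p hp (by rw [hz]; exact hpz)

end aux

/-- Let `F_1, …, F_g`, `G` be as in the question, no two of the `F_i` translates of each other, `θ, η > 0`,
`0 < δ ≤ 1`. There are `v > 0` and `R`, such that for all `J`, `L`, `x₀`, all `ε > 0` and all large `r`: for EVERY large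
admissible `N`, with `y = ⌊N ^ (1 / r)⌋`, `z = ⌊N ^ v⌋`, and all `T` with `T V ≤ x₀`, `V = V F G N y`, the set
`Rough F G N y` satisfies:
(1) if some `F_i` is the polynomial `n`: `PrimeLaw` for all `K ≥ N ^ θ` and all `(Z, Z + Y]` with `δ K ≤ Z`,
`δ K ≤ Y`, `Z + Y ≤ K`: for all disjoint windows `(a j, b j] ⊆ (0, T]`, `j < J`, all `s ≤ T` outside of them and all
`k j ≤ L`, the number of the `n` in `(Z, Z + Y]` for which `n + s` is a PRIME in `Rough F G N y` and exactly `k j`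
elements of `Rough F G N y` lie in `(n + a j, n + b j]` for all `j` is `Y V / (mertens y * log K) Π` up to
`ε Y V / (mertens y * log K)`, where `Π` is the product of the probabilities that a Poisson variable of mean
`(b j - a j) V` has the value `k j`. (For `J = 0` this is the number of the primes `p` for which no value has a prime
factor `≤ y`.)
(2) `PoissonLaw` for ALL intervals `(Z, Z + Y]` with `Y ≥ N ^ θ`: the same for arbitrary elements `n + s` of
`Rough F G N y`, with `Y V` instead of `Y V / (mertens y * log K)`, and for arbitrary integers `n`, with `Y`.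
(3) `CentreLaw` if moreover `Z + Y + T ≤ N`: the number of the `n` in `(Z, Z + Y]` with `n + s ∈ AlmostRough F G N R z`,
with the same windows, is `Y W Π` up to `(η Π + ε) Y W`, `W = V F G N z`. -/
theorem result (F : Fin g → ℤ[X]) (G : ℤ[X]) (h : Data F G) (θ δ η : ℝ) (hθ : 0 < θ) (hδ : 0 < δ) (hδ1 : δ ≤ 1)
    (hη : 0 < η) :
    ∃ v : ℝ, 0 < v ∧ ∃ R : ℕ, ∀ (J L : ℕ) (x₀ ε : ℝ), 0 < ε →
    ∃ r₀ : ℕ, ∀ r : ℕ, r₀ ≤ r → ∀ᶠ N : ℕ in atTop, Admissible F G N →
      ∀ y z : ℕ, y = ⌊(N : ℝ) ^ (1 / (r : ℝ))⌋₊ → z = ⌊(N : ℝ) ^ v⌋₊ → ∀ T : ℕ, T * V F G N y ≤ x₀ →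
        ((∃ i, F i = X) → ∀ K Z Y : ℕ, (N : ℝ) ^ θ ≤ K → δ * K ≤ Z → δ * K ≤ Y → Z + Y ≤ K →
          PrimeLaw (Rough F G N y) (V F G N y) y J L ε K Z Y T) ∧
        ∀ Z Y : ℕ, (N : ℝ) ^ θ ≤ Y → PoissonLaw (Rough F G N y) (V F G N y) J L ε Z Y T ∧
          (Z + Y + T ≤ N →
            CentreLaw (AlmostRough F G N R z) (Rough F G N y) (V F G N z) (V F G N y) J L η ε Z Y T) := by
  obtain ⟨D, hD⟩ : ∃ D, D = G.natDegree + ∑ i, (F i).natDegree := ⟨_, rfl⟩
  have hD1 : 1 ≤ D := by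
    have := h.degreeG
    omega
  have hDr : (1 : ℝ) ≤ D := by exact_mod_cast hD1
  have hδ' : (0 : ℝ) < 1 / (2 * (D : ℝ)) := by positivity
  obtain ⟨v, hv, hG⟩ := lawG_polys (g + 1) D 2 (1 / (2 * (D : ℝ))) θ two_pos hδ' hθ η hη
  refine ⟨v, hv, ⌊((D + 2 : ℕ) : ℝ) / v⌋₊, ?_⟩
  intro J L x₀ ε hε
  obtain ⟨r₁, h1⟩ := law_polys (g + 1) D 2 (1 / (2 * (D : ℝ))) θ two_pos hδ' hθ J L x₀ ε hε
  obtain ⟨r₂, h2⟩ := plaw_polys (g + 1) D 2 (1 / (2 * (D : ℝ))) θ δ two_pos hδ' hθ hδ hδ1 J L x₀ ε hε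
  obtain ⟨r₃, h3⟩ := hG v hv le_rfl J L x₀ ε hε
  have hpow : Tendsto (fun X : ℕ => (X : ℝ) ^ v) atTop atTop :=
    (tendsto_rpow_atTop hv).comp tendsto_natCast_atTop_atTop
  refine ⟨max (max r₁ r₃) (max r₂ 2), fun r hr => ?_⟩
  obtain ⟨Cv, hCv, hV⟩ := sys_V F G h r (((le_max_right _ _).trans (le_max_right _ _)).trans hr)
  filter_upwards [h1 r (((le_max_left _ _).trans (le_max_left _ _)).trans hr) Cv,
    h2 r (((le_max_left _ _).trans (le_max_right _ _)).trans hr) Cv,
    h3 r (((le_max_right _ _).trans (le_max_left _ _)).trans hr) Cv, hV, sys_us F G h D hD, val_le F G D hD,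
    hpow.eventually_ge_atTop 2, eventually_ge_atTop 2] with N hN hN' hN'' hVN hUS hval hNv hN2
  intro hadm y z hy hz T hT
  have hz2 : 2 ≤ z := by
    rw [hz]
    exact Nat.le_floor (by exact_mod_cast hNv)
  refine ⟨fun hX K Z Y hK hZ hY hZY => ?_, fun Z Y hY => ⟨?_, fun hZ => ?_⟩⟩
  · obtain ⟨i, hi⟩ := hX
    have h4 := hN' (sy F G N) (hUS hadm) ⟨Fin.succ i, fun n => by
      unfold sy
      rw [Fin.cons_succ, hi, eval_X]⟩ (hVN hadm) K Z Y hK hZ hY hZY T
    rw [← hy, V_eq] at h4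
    exact h4 hT (Rough F G N y) (fun m _ => rough_iff F G N y m)
  · have h4 := hN (sy F G N) (hUS hadm) (hVN hadm) Z Y hY T
    rw [← hy, V_eq] at h4
    exact h4 hT (Rough F G N y) (fun m _ => rough_iff F G N y m)
  · have h4 := hN'' y z hy hz (sy F G N) (hUS hadm) (by rw [hy]; exact hVN hadm) Z Y hY T
    rw [V_eq, V_eq] at h4
    exact h4 hT (AlmostRough F G N ⌊((D + 2 : ℕ) : ℝ) / v⌋₊ z) (Rough F G N y) (fun m _ => rough_iff F G N y m)
      (fun m hm => (almost_iff F G D N z m v hN2 hv hz hz2 (hval m (by omega))).trans (rough_iff F G N z m))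

end Pool.Agent.Results.MP_0bf1d2_nt.EveryNPoisson
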