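import Pool.Agent.U325.PH.Neg

set_option autoImplicit false

/-!
# The parity barrier for the hypothesis of Schinzel on N - G(n)

Sieve methods bound the number of the `n` in a set `S` (for instance the set of the `n ≤ x` for which the values
`F_1(n), ..., F_g(n)` of the problem are all prime) with `N - G(n)` prime by the sum over `S` of a combination
`F(n)` of sieve functions, sums of weights over the divisors of `N - G(n)`. The theorem: for almost all
`N ≤ x ^ h`, `h` the degree of `G`, the true sum over `S` of such a combination does not see the parity of the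
number of prime factors of `N - G(n)`. The set `S` is ARBITRARY, everything may be known about it, and `F` may contain

* arbitrary bounded functions `b(n)`,
* arbitrary sieve weights, which do not depend on `N` (as those of Brun, of the linear sieve, of Richert), of
  level `x ^ h exp (-(log x) ^ δ)`, so nearly of the size of the values, though `n` runs up to `x` only, and
* arbitrary bounded coefficients of the sieve functions, which may depend on `N`.

So for almost all `N` no argument of this kind gives a single `n` in `S` with `N - G(n)` prime, nor an upper bound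
for their number which is better than twice the truth.

Idea of the proof. By the bound of Davenport the exponential sums over `λ` times a sieve function are small at
all frequencies. The exponential sum over the values of `G` is large at few frequencies only, as the additive
energy of a sufficiently large order of the values of a polynomial is minimal up to a constant; for this it does
not matter that the sum is restricted to `S`. This gives the mean value over `N` of the absolute value of the sum.
-/

namespace Pool.Agent.Results.MP_0bf1d2_nt.SchinzelParityBarrier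

open Finset Polynomial
open Pool.Agent.U325.PH (comb)
open Pool.Agent.U325.PA (IsSieve)
open ArithmeticFunction (cardFactors)

/-- The combination `F` does not see the parity of the numbers of prime factors of the `f(n)`, `n` in `S`, up to
the error `B`: (0) the sum of `(-1) ^ Ω(f(n)) F(n)` over `S` is at most `B` in absolute value; (1) if `F(n) ≤ 0` for the
`n` in `S` with `Ω(f(n))` even, then the sum of `F(n)` over `S` is at most `B`; (2) if `F(n) ≥ 0` for the `n` in `S`, and
`F(n) ≥ 1` if also `f(n)` is prime, then the sum of `F(n)` over `S` is at least twice the number of the `n` in `S`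
with `f(n)` prime, minus `B`. -/
def Barrier (S : Finset ℕ) (B : ℝ) (f : ℕ → ℕ) (F : ℕ → ℝ) : Prop :=
  |∑ n ∈ S, (-1 : ℝ) ^ cardFactors (f n) * F n| ≤ B ∧
  ((∀ n ∈ S, Even (cardFactors (f n)) → F n ≤ 0) → ∑ n ∈ S, F n ≤ B) ∧
  ((∀ n ∈ S, 0 ≤ F n) → (∀ n ∈ S, (f n).Prime → 1 ≤ F n) →
    2 * ((S.filter fun n => (f n).Prime).card : ℝ) - B ≤ ∑ n ∈ S, F n)

lemma barrier_of (S : Finset ℕ) (B : ℝ) (f : ℕ → ℕ) (F : ℕ → ℝ)
    (h0 : |∑ n ∈ S, (-1 : ℝ) ^ cardFactors (f n) * F n| ≤ B) : Barrier S B f F := by
  obtain ⟨hlow, hup⟩ := abs_le.1 h0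
  refine ⟨h0, fun h1 => ?_, fun h1 h2 => ?_⟩
  · have h3 : ∑ n ∈ S, F n ≤ -∑ n ∈ S, (-1 : ℝ) ^ cardFactors (f n) * F n := by
      rw [← sum_neg_distrib]
      refine sum_le_sum fun n hn => ?_
      rcases Nat.even_or_odd (cardFactors (f n)) with he | ho
      · rw [he.neg_one_pow]
        have := h1 n hn he
        linarith
      · rw [ho.neg_one_pow]
        linarith
    linarith
  · have h3 : 2 * ((S.filter fun n => (f n).Prime).card : ℝ) ≤
        ∑ n ∈ S, (F n - (-1 : ℝ) ^ cardFactors (f n) * F n) := by
      have e1 : 2 * ((S.filter fun n => (f n).Prime).card : ℝ) =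
          ∑ n ∈ S, if (f n).Prime then (2 : ℝ) else 0 := by
        rw [← sum_filter, sum_const, nsmul_eq_mul]
        ring
      rw [e1]
      refine sum_le_sum fun n hn => ?_
      have hF := h1 n hn
      by_cases hp : (f n).Prime
      · rw [if_pos hp]
        have hF1 := h2 n hn hp
        rw [ArithmeticFunction.cardFactors_apply_prime hp]
        norm_num
        linarith
      · rw [if_neg hp]
        rcases neg_one_pow_eq_or ℝ (cardFactors (f n)) with h4 | h4 <;> rw [h4] <;> linarith
    rw [sum_sub_distrib] at h3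
    linarith

/-- Let `G` be a polynomial with integer coefficients, positive leading coefficient and degree `h ≥ 1`, let
`A`, `C` be natural numbers and `δ > 0`, `L = log x`. For all large `x`, all `K ≤ L ^ C`, ALL sets `S` of integers in
`[1, x]`, all functions `b_k(n)` with values in `[-1, 1]` and all sieve weights `σ_k` of level
`x ^ h exp (-L ^ δ)` (`k ≤ K`), all integers `1 ≤ N ≤ x ^ h` but at most `x ^ h / L ^ A` have the following property for
ALL real numbers `t_k`, `|t_k| ≤ L ^ C`. Let `f(n) = N - G(n)` if this is positive, and `f(n) = 0` else, and let `F(n)`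
be the sum over `k` of `t_k b_k(n)` times the sum of `σ_k(e)` over the divisors `e` of `f(n)` (so `F(n) = 0` if `f(n) = 0`).
Then
(0) the sum of `(-1) ^ Ω(f(n)) F(n)` over `S` is at most `x / L ^ A` in absolute value;
(1) if `F(n) ≤ 0` for the `n` in `S` with `Ω(f(n))` even, then the sum of `F(n)` over `S` is at most `x / L ^ A`;
(2) if `F(n) ≥ 0` for the `n` in `S`, and `F(n) ≥ 1` if also `N - G(n)` is prime, then the sum of `F(n)` over `S` is at
least twice the number of the `n` in `S` with `N - G(n)` prime, minus `x / L ^ A`. -/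
theorem result (P : ℤ[X]) (hP : 1 ≤ P.natDegree) (hl : 0 < P.leadingCoeff) (A C : ℕ) (δ : ℝ) (hδ : 0 < δ) :
    ∃ x₀ : ℕ, ∀ x : ℕ, x₀ ≤ x → ∀ (K : ℕ) (S : Finset ℕ) (b σ : Fin K → ℕ → ℝ),
      (K : ℝ) ≤ Real.log x ^ C → S ⊆ Icc 1 x → (∀ k n, |b k n| ≤ 1) →
      (∀ k, IsSieve C δ x ((x : ℝ) ^ P.natDegree) (σ k)) →
    ∃ E : Finset ℕ, (E.card : ℝ) ≤ (x : ℝ) ^ P.natDegree / Real.log x ^ A ∧
      ∀ N : ℕ, 1 ≤ N → N ≤ x ^ P.natDegree → N ∉ E → ∀ t : Fin K → ℝ, (∀ k, |t k| ≤ Real.log x ^ C) →
      Barrier S (x / Real.log x ^ A) (fun n => ((N : ℤ) - P.eval (n : ℤ)).toNat)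
        (fun n => comb b σ t n (((N : ℤ) - P.eval (n : ℤ)).toNat)) := by
  classical
  obtain ⟨x₁, hx₁⟩ := Pool.Agent.U325.PH.few_neg P hP hl A C δ hδ
  refine ⟨max x₁ 3, fun x hx K S b σ hK hS hb hσ => ?_⟩
  have hx3 : 3 ≤ x := (le_max_right _ _).trans hx
  have hx3r : (3 : ℝ) ≤ x := by exact_mod_cast hx3
  have hL1 : 1 ≤ Real.log x := by
    rw [← Real.log_exp 1]
    refine Real.log_le_log (Real.exp_pos _) ?_
    have := Real.exp_one_lt_d9
    linarith
  have hb' : ∀ k n, |(if n ∈ S then b k n else 0)| ≤ 1 := by
    intro k n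
    split_ifs
    · exact hb k n
    · rw [abs_zero]; exact zero_le_one
  obtain ⟨E, hE, hmain⟩ := hx₁ x ((le_max_left _ _).trans hx) K 1 (fun n => P.eval (n : ℤ))
    (fun k n => if n ∈ S then b k n else 0) σ hK ⟨le_rfl, fun m _ => by
      rw [Nat.cast_one, one_mul, sub_self, abs_zero]
      positivity⟩ hb' hσ
  refine ⟨E, hE, fun N hN1 hNx hNE t ht => barrier_of _ _ _ _ ?_⟩
  have hz : ∀ n ∈ Icc 1 x, n ∉ S → Pool.Agent.U325.PB.lam (((N : ℤ) - P.eval (n : ℤ)).toNat) *
      comb (fun k n => if n ∈ S then b k n else 0) σ t n (((N : ℤ) - P.eval (n : ℤ)).toNat) = 0 := by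
    intro n _ hn
    unfold comb
    simp only [if_neg hn, mul_zero, zero_mul, sum_const_zero]
  have he : ∀ n ∈ S, (-1 : ℝ) ^ cardFactors (((N : ℤ) - P.eval (n : ℤ)).toNat) *
      comb b σ t n (((N : ℤ) - P.eval (n : ℤ)).toNat) =
      Pool.Agent.U325.PB.lam (((N : ℤ) - P.eval (n : ℤ)).toNat) *
        comb (fun k n => if n ∈ S then b k n else 0) σ t n (((N : ℤ) - P.eval (n : ℤ)).toNat) := by
    intro n hn
    unfold comb Pool.Agent.U325.PB.lam
    simp only [if_pos hn]
  have hfin := hmain N (mem_Icc.2 ⟨hN1, hNx⟩) hNE t ht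
  rw [← sum_subset hS hz] at hfin
  rw [sum_congr rfl he]
  exact hfin

end Pool.Agent.Results.MP_0bf1d2_nt.SchinzelParityBarrier
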