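import Pool.Agent.U746.RR.Fam
import Pool.Agent.U746.AP.Fin2

set_option autoImplicit false

/-!
# Schinzel's Goldbach-type hypothesis for almost all `N`, for all polynomials and on arbitrary sets of prime values

Let `F_1, …, F_g ∈ ℤ[X]` be distinct irreducible polynomials of positive degree and with positive leading coefficients, `G`
a polynomial of degree `h_0 ≥ 1` with positive leading coefficient, and let `S` be an ARBITRARY set of positive integers
`n` at which all the values `F_1(n), …, F_g(n)` are primes, for example the set of all of them (or a set of `n` at which these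
values are free of prime factors `≤ n^(1/m)`). For almost all `N` the number of the `n` in `S` for which `N - G(n)` is a
positive prime is

`#{n ∈ S : no prime ≤ w divides N - G(n)} / (h_0 log x ∏_{p ≤ w} (1 - 1/p)) + O(ε x / (log x) ^ (g + 1))`,

where `w` does not depend on `x`; in particular (`S` = all `n` at which the `F_i` are prime) the counting function `Q_1(N)` of
Schinzel's hypothesis is given, for almost all `N`, up to an error which is small compared with its expected order, by the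
numbers of the prime values of `F_1, …, F_g` in the residue classes of a fixed modulus. Here `N` runs through any interval
`(c, c + A]` with `c + A ≤ B x^(h_0)`, `x^(h_0) ≤ B A`, and `n ≤ x` where `G ≤ c`; so `N - G(n)` is positive.
-/

namespace Pool.Agent.Results.MP_0bf1d2_nt.SetsOfPrimeValues

open Finset Filter Topology Polynomial

/-- The arguments `n` at which all the values `F_i(n)` are primes, or are all free of prime factors `p ≤ n ^ (1/m)`. -/
def Arguments {g : ℕ} (F : Fin g → ℤ[X]) (m : ℕ) : Set ℕ :=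
  {n | (∀ i, ((F i).eval (n : ℤ)).toNat.Prime) ∨ ∀ p : ℕ, p.Prime → p ^ m ≤ n → ∀ i, ¬ (p : ℤ) ∣ (F i).eval (n : ℤ)}

open Classical in
/-- The number of the `1 ≤ n ≤ y` in `S` for which `N - G(n)` is a (positive) prime. -/
noncomputable def primesAt (G : ℤ[X]) (S : Set ℕ) (N y : ℕ) : ℕ :=
  ((Icc 1 y).filter (fun n : ℕ => n ∈ S ∧ ((N : ℤ) - G.eval (n : ℤ)).toNat.Prime)).card

open Classical in
/-- The number of the `1 ≤ n ≤ y` in `S` for which no prime `p ≤ w` divides `N - G(n)`. -/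
noncomputable def sifted (G : ℤ[X]) (S : Set ℕ) (N w y : ℕ) : ℕ :=
  ((Icc 1 y).filter (fun n : ℕ => n ∈ S ∧ ∀ p : ℕ, p.Prime → p ≤ w → ¬ (p : ℤ) ∣ (N : ℤ) - G.eval (n : ℤ))).card

/-- `V(w) = ∏_{p ≤ w} (1 - 1/p)`. -/
noncomputable def V (w : ℕ) : ℝ := ∏ p ∈ (Icc 1 w).filter Nat.Prime, (1 - 1 / (p : ℝ))

/-- The formula for one `N`. -/
def Good (g : ℕ) (G : ℤ[X]) (S : Set ℕ) (ε : ℝ) (w x N : ℕ) : Prop := ∀ y ≤ x,
  |(primesAt G S N y : ℝ) - (sifted G S N w y : ℝ) / V w / (G.natDegree * Real.log x)| ≤ ε * x / Real.log x ^ (g + 1)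

open Classical in
/-- The `c < N ≤ c + A` for which the formula fails. -/
noncomputable def exceptions (g : ℕ) (G : ℤ[X]) (S : Set ℕ) (ε : ℝ) (w x c A : ℕ) : Finset ℕ :=
  (Ioc c (c + A)).filter (fun N : ℕ => ¬ Good g G S ε w x N)

lemma val (G : ℤ[X]) (N : ℕ) (i : Fin 1) (n : ℕ) :
    Pool.Agent.H373R2.T7.vl (fun _ : Fin 1 => G) (fun _ => -1) (fun _ => N) i n = (N : ℤ) - G.eval (n : ℤ) := by
  unfold Pool.Agent.H373R2.T7.vl; ring

lemma NP_eq (G : ℤ[X]) (N : ℕ) (S : Set ℕ) (y : ℕ) :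
    Pool.Agent.U746.AP.NP (fun _ : Fin 1 => G) (fun _ => -1) (fun _ => N) S y = primesAt G S N y := by
  classical
  unfold Pool.Agent.U746.AP.NP primesAt
  congr 1
  apply filter_congr
  intro n _
  simp only [val]
  constructor
  · rintro ⟨h1, h2⟩; exact ⟨h1, h2 0⟩
  · rintro ⟨h1, h2⟩; exact ⟨h1, fun _ => h2⟩

lemma MP_eq (G : ℤ[X]) (N : ℕ) (S : Set ℕ) (w y : ℕ) :
    Pool.Agent.U746.AP.MP (fun _ : Fin 1 => G) (fun _ => -1) (fun _ => N) S w y = sifted G S N w y := by
  classical
  unfold Pool.Agent.U746.AP.MP sifted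
  congr 1
  apply filter_congr
  intro n _
  simp only [val]
  constructor
  · rintro ⟨h1, h2⟩
    exact ⟨h1, fun p hp hw => h2 0 p (Pool.Agent.H373R2.T7.mem_pz.2 ⟨hw, hp⟩)⟩
  · rintro ⟨h1, h2⟩
    refine ⟨h1, fun i p hp => ?_⟩
    obtain ⟨h3, h4⟩ := Pool.Agent.H373R2.T7.mem_pz.1 hp
    exact h2 p h4 h3

/-- **Schinzel's Goldbach-type hypothesis for almost all `N`, on arbitrary sets of prime values.** -/
theorem result {g : ℕ} (F : Fin g → ℤ[X]) (hF : ∀ i, Irreducible (F i)) (hd : ∀ i, 0 < (F i).natDegree)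
    (hl : ∀ i, 0 < (F i).leadingCoeff) (hinj : Function.Injective F) (G : ℤ[X]) (hG : 1 ≤ G.natDegree)
    (hGl : 0 < G.leadingCoeff) (m B : ℕ) (hB : 1 ≤ B) (ε : ℝ) (hε : 0 < ε) :
    ∃ w₀ : ℕ, ∀ w : ℕ, w₀ ≤ w → ∃ x₀ : ℕ, ∀ x : ℕ, x₀ ≤ x → ∀ c A : ℕ, c + A ≤ B * x ^ G.natDegree →
      x ^ G.natDegree ≤ B * A → (∀ n : ℕ, 1 ≤ n → n ≤ x → G.eval (n : ℤ) ≤ c) →
      ∀ S : Set ℕ, S ⊆ Arguments F m → ((exceptions g G S ε w x c A).card : ℝ) ≤ ε * A := by
  classical
  obtain ⟨T, C, M, hM, hT, hsub, K, hK0, x1, hK⟩ := Pool.Agent.U746.RR.fam F hF hd hl hinj m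
  set K' : ℝ := max K 1 with hK'
  have hK'1 : 1 ≤ K' := le_max_right _ _
  have hK'0 : 0 < K' := by linarith
  obtain ⟨w₀, -, h0⟩ := Pool.Agent.U746.AP.arb2 (fun _ : Fin 1 => G) (fun _ => hG) (fun _ => hGl) (fun _ => -1)
    (fun _ => Or.inr rfl) C M hM B hB (ε / K') (by positivity)
  refine ⟨w₀, fun w hw => ?_⟩
  obtain ⟨x₀, h1⟩ := h0 w hw T hT
  refine ⟨max (max x₀ x1) 3, fun x hx c A hc1 hc2 hGc S hS => ?_⟩
  have b1 : x₀ ≤ x := ((le_max_left _ _).trans (le_max_left _ _)).trans hx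
  have b2 : x1 ≤ x := ((le_max_right _ _).trans (le_max_left _ _)).trans hx
  have b3 : 3 ≤ x := (le_max_right _ _).trans hx
  have hL0 : 0 < Real.log x := Real.log_pos (by exact_mod_cast (by omega : 1 < x))
  have hdG : (1 : ℝ) ≤ G.natDegree := by exact_mod_cast hG
  have h2 := h1 x b1 (fun _ => c) (fun _ => A) (fun _ => ⟨hc1, hc2⟩) (fun _ _ => hGc) S (hS.trans hsub)
  simp only [prod_const, card_univ, Fintype.card_fin, pow_one] at h2
  have h3 : ε / K' * A ≤ ε * A := by
    apply mul_le_mul_of_nonneg_right _ (Nat.cast_nonneg A)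
    exact div_le_self hε.le hK'1
  refine le_trans ?_ (h2.trans h3)
  apply Nat.cast_le.2
  apply card_le_card_of_injOn (fun N => (fun _ : Fin 1 => N))
  · intro N hN
    unfold exceptions at hN
    rw [mem_coe, mem_filter] at hN
    rw [mem_coe, mem_filter]
    refine ⟨?_, fun h4 => hN.2 fun y hy => ?_⟩
    · unfold Pool.Agent.U746.AP.box
      rw [Fintype.mem_piFinset]
      intro i
      exact hN.1
    · have h5 := h4 y hy
      rw [NP_eq, MP_eq] at h5
      have hLam : Pool.Agent.U746.AS.Lam (fun _ : Fin 1 => G) x = G.natDegree * Real.log x := by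
        unfold Pool.Agent.U746.AS.Lam
        rw [Fin.prod_univ_one]
      rw [hLam] at h5
      have hΛ : 0 < (G.natDegree : ℝ) * Real.log x := by positivity
      have e1 : (primesAt G S N y : ℝ) - (sifted G S N w y : ℝ) / V w / (G.natDegree * Real.log x) =
          ((G.natDegree : ℝ) * Real.log x * primesAt G S N y - (Pool.Agent.H373R2.T7.Vz w)⁻¹ * sifted G S N w y) /
            (G.natDegree * Real.log x) := by
        have hV : Pool.Agent.H373R2.T7.Vz w = V w := rfl
        rw [hV]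
        field_simp
      rw [e1, abs_div, abs_of_pos hΛ, div_le_iff₀ hΛ]
      refine h5.trans ?_
      have h6 : (Pool.Agent.U746.AS.cntS T x : ℝ) ≤ K' * (x / Real.log x ^ g) :=
        (hK x b2).trans (mul_le_mul_of_nonneg_right (le_max_left _ _) (by positivity))
      calc ε / K' * (Pool.Agent.U746.AS.cntS T x : ℝ) ≤ ε / K' * (K' * (x / Real.log x ^ g)) := by gcongr
        _ = 1 * (ε * x / Real.log x ^ g) := by field_simp
        _ ≤ G.natDegree * (ε * x / Real.log x ^ g) := by
            apply mul_le_mul_of_nonneg_right hdG (by positivity)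
        _ = ε * x / Real.log x ^ (g + 1) * (G.natDegree * Real.log x) := by
            rw [pow_succ]
            field_simp
  · intro N _ N' _ h
    exact congrFun h 0

end Pool.Agent.Results.MP_0bf1d2_nt.SetsOfPrimeValues
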