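import Pool.Agent.U308.LP.Multi
import Pool.Agent.Results.MP_0bf1d2_nt.SmoothNumbers

/-!
# Schinzel's hypothesis H_N for linear polynomials, uniformly in the coefficients, for all `N` near almost all very smooth numbers

Definitions used: from the starting file `Pool.Agent.Results.MP_0bf1d2_nt.SmoothNumbers`: `Holds ε A D M N t`: the formula of the
hypothesis for `t`, with a relative error of at most `ε`, for all polynomials `F₁ = a x + b`, `G = a m x + b'` with
`a ≤ (log N) ^ D`, `m ≤ M`, `|b|, |b'| ≤ (log N) ^ A` for which `F₁ (t - G)` has no fixed prime divisor (`Admissible t b b' a m`);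
there `Q₁ t b b' a m` is the number of the `n ≥ 1` with `t - G(n) > 0` for which `F₁(n)` and `t - G(n)` are primes, `X t b' a m`
the number of the `n ≥ 1` with `t - G(n) > 0`, `series t b b' a m` the singular series; `composedOf P N`: the integers
`1 ≤ v ≤ N` all of whose prime factors belong to `P`; `smooth y N`: the `y`-smooth integers `1 ≤ v ≤ N`.

Method (helper308). The starting result `SmoothNumbers` has the same assertion for `y ≥ log ^ (2 + δ) N` (and for sets
`P` with at least `y ^ (1 / 2 + δ) log N` elements). Below `log ^ 2 N` the exponential sum over the integers composed of primes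
from `P` cannot be bounded in the same way. New here is a weight `w(v)`, the number of the representations `v = m₁ m₂ u`, where
`m₁` and `m₂` are products of `h` different primes from one dyadic class of `P` with more elements than the square root of the
primes, and `u` is composed of primes from `P`: the weighted exponential sum is small except near few rational numbers with
small denominators (`Pool.Agent.U308.SH.chain`, `Pool.Agent.U308.SH.bilin`, `Pool.Agent.U308.SG.exp_rr`), and `w(v)` is at least
`1 / log N` of its mean value for almost all `v` (`Pool.Agent.U308.SG.structB`, `Pool.Agent.U308.SG.dom2`), so that a property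
which holds with the weight `w` for almost all `v` holds for almost all `v` (`Pool.Agent.U308.TL.sm_tlaw2`, `dom_le`). The
second moment argument for the primes and their linear forms is from the starting files.
-/

set_option autoImplicit false

namespace Pool.Agent.Results.MP_0bf1d2_nt.VerySmoothNumbers

open Finset
open Pool.Agent.Results.MP_0bf1d2_nt.SmoothNumbers (Q₁ X classes series Admissible Holds composedOf smooth local_cond)

open Classical in
/-- Let `A`, `B`, `D`, `M`, `W`, `U`, `K`, the integer `κ ≠ 0`, `0 < ε ≤ 1` and `δ > 0` be fixed, let `N` be large,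
`y ≤ log ^ K N`, and let `c` be an arbitrary integer with `|c| ≤ B N`.

(1) Let `P` be an arbitrary set of primes which are at most `y`, with at least `y ^ (1 / 2 + δ)` and at least `log ^ (1 + δ) N` elements. Then
for all the integers `v ≤ N` composed of primes from `P`, up to a proportion of at most `1 / log ^ U N` of them,
the formula of Schinzel's hypothesis holds (with a relative error of at most `ε`) for all `t = c + κ v + r` with
`|r| ≤ (log N) ^ A` and `N / (log N) ^ W ≤ t ≤ B N` and all the polynomials `F₁ = a x + b`, `G = a m x + b'` as in `Holds`.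
(There can be fewer than `N ^ δ` such integers `v`.)

(2) In particular this holds for all the `y`-smooth integers `v ≤ N`, up to a proportion of at most `1 / log ^ U N` of them,
if `y ≥ log ^ (1 + δ) N`. (For example for all `t` near `v` itself.) -/
theorem result (A B D M W U K : ℕ) (κ : ℤ) (hκ : κ ≠ 0) (ε : ℝ) (hε : 0 < ε) (hε1 : ε ≤ 1) (δ : ℝ) (hδ : 0 < δ) :
    ∃ N₀ : ℕ, ∀ N, N₀ ≤ N → ∀ y : ℕ, (y : ℝ) ≤ Real.log N ^ K → ∀ c : ℤ, |c| ≤ B * N →
      (∀ P : Finset ℕ, (∀ p ∈ P, p.Prime ∧ p ≤ y) → (y : ℝ) ^ (1 / 2 + δ) ≤ P.card → Real.log N ^ (1 + δ) ≤ P.card →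
        (((composedOf P N).filter fun v : ℕ => ∃ r : ℤ, |(r : ℝ)| ≤ Real.log N ^ A ∧
          (N : ℝ) / Real.log N ^ W ≤ ((c + κ * v + r : ℤ) : ℝ) ∧ c + κ * v + r ≤ B * N ∧ ¬ Holds ε A D M N (c + κ * v + r)).card : ℝ) ≤
          ((composedOf P N).card : ℝ) / Real.log N ^ U) ∧
      (Real.log N ^ (1 + δ) ≤ y →
        (((smooth y N).filter fun v : ℕ => ∃ r : ℤ, |(r : ℝ)| ≤ Real.log N ^ A ∧
          (N : ℝ) / Real.log N ^ W ≤ ((c + κ * v + r : ℤ) : ℝ) ∧ c + κ * v + r ≤ B * N ∧ ¬ Holds ε A D M N (c + κ * v + r)).card : ℝ) ≤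
          ((smooth y N).card : ℝ) / Real.log N ^ U) := by
  obtain ⟨N₀, h0⟩ := Pool.Agent.U308.TL.both2 δ hδ K U _
    (fun δ hδ => Pool.Agent.U308.LP.sm_multi2 (ε / 8) (by positivity) κ hκ K (B + 1) (A + 1) D (W + 1) δ hδ M U)
  obtain ⟨N₁, h1⟩ := Pool.Agent.N469.LP.schin_of ε hε hε1 A B D M W
  obtain ⟨N₂, h2⟩ := Pool.Agent.H373R2.T7.ev_L' (M + 2)
  refine ⟨N₀ + N₁ + N₂, fun N hN y hy' c hc => ?_⟩
  refine h0 N (by omega) y hy' (fun v : ℕ => ∃ r : ℤ, |(r : ℝ)| ≤ Real.log N ^ A ∧
          (N : ℝ) / Real.log N ^ W ≤ ((c + κ * v + r : ℤ) : ℝ) ∧ c + κ * v + r ≤ B * N ∧ ¬ Holds ε A D M N (c + κ * v + r))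
          (fun v => inferInstance) ⟨c, hc.trans ?_, ?_⟩
  · apply mul_le_mul_of_nonneg_right _ (by positivity)
    push_cast
    linarith
  rintro v ⟨r, hr, ht1, ht2, hnot⟩
  have hL := h2 N (by omega)
  obtain ⟨t, ht⟩ : ∃ t, t = c + κ * (v : ℤ) + r := ⟨_, rfl⟩
  rw [← ht] at ht1 ht2 hnot
  by_contra hcon
  push Not at hcon
  apply hnot
  intro a m b b' ha haL hm hmM hb hb' hadm
  obtain ⟨c1, c2, c3⟩ := local_cond t b b' a m hadm
  obtain ⟨d1, d2, d3, d4⟩ := h1 N (by omega) t b b' a m ht1 ht2 ha haL hb hb' hm hmM c1 c2 c3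
  apply d4
  have e : c + κ * (v : ℤ) + (r + m * b - b') = t + m * b - b' := by rw [ht]; ring
  have h3 := hcon m hm hmM (r + m * b - b') (by
    push_cast
    have q1 := abs_le.1 hr
    have q2 := abs_le.1 hb
    have q3 := abs_le.1 hb'
    have q4 : (m : ℝ) ≤ M := by exact_mod_cast hmM
    have q5 : (0 : ℝ) ≤ m := Nat.cast_nonneg _
    have q6 : (0 : ℝ) ≤ Real.log N ^ A := by
      have : (0 : ℝ) ≤ M := Nat.cast_nonneg _
      exact pow_nonneg (by linarith) _
    have q7 : |(m : ℝ) * b| ≤ M * Real.log N ^ A := by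
      rw [abs_mul, abs_of_nonneg q5]
      exact mul_le_mul q4 hb (abs_nonneg _) (Nat.cast_nonneg _)
    have q8 := abs_le.1 q7
    have q9 : (M + 2) * Real.log N ^ A ≤ Real.log N * Real.log N ^ A := mul_le_mul_of_nonneg_right hL q6
    rw [pow_succ, abs_le]
    constructor <;> linarith [q1.1, q1.2, q3.1, q3.2, q8.1, q8.2])
  rw [e] at h3
  exact h3 d1 d2 d3

end Pool.Agent.Results.MP_0bf1d2_nt.VerySmoothNumbers
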